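import Pool.Agent.X126.IsoC

set_option autoImplicit false

namespace Pool.Agent.Results.MP_86c582_an.IsolatedZeroEntropy

open Pool.Agent.X126.Iso Filter Topology

/-- For every `d ≥ 1`, every shift isolated in the space of transitive `d`-dimensional shifts has
topological entropy `0`. -/
theorem result : ∀ d : ℕ, 1 ≤ d → ∀ X : Set (Cfg d), Isolated X →
    Tendsto (fun n : ℕ => Real.log ((Ln n X).ncard) / (n : ℝ) ^ d) atTop (𝓝 0) :=
  fun _ hd _ hX => main hd hX

end Pool.Agent.Results.MP_86c582_an.IsolatedZeroEntropy
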